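import Pool.Agent.helper82.SW.SpecW

/-! # sp:WSGN: the criterion gives mutually singular limits -/

namespace Pool.Agent.helper82.SW

open MeasureTheory Filter Topology TopologicalSpace
open scoped BoundedContinuousFunction

/-- SGN. -/
theorem SGN (hSING : SING_stmt) (hPMC : PMC_stmt) (hPMO : PMO_stmt) (hCL : CL_stmt)
    (hSAT : SAT_stmt) (hPSB : PSB_stmt) (hPPB : PPB_stmt) : SGN_stmt := by
  classical
  intro _ _ s μ ν _ _ hs hcrit hμ hν
  refine hSING _ μ ν ?_
  intro η hη
  obtain ⟨E, φ, hφ⟩ := hcrit η hη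
  obtain ⟨hclosed, hopen, hsub⟩ := hCL E φ
  refine ⟨{K | satCK E K φ}, hclosed.measurableSet, ?_, ?_⟩
  · refine hPMC _ μ (fun n => Finset (SpectralPivotal.sites (2 ^ s n)))
      (fun n S => SpectralPivotal.fhat (2 ^ s n) S ^ 2)
      (fun n S => SpectralPivotal.scaled (2 ^ s n) S) (fun n S => sq_nonneg _) hμ _ (1 - η)
      hclosed ?_
    rw [frequently_atTop]
    intro n₀
    obtain ⟨_, ⟨n, rfl⟩, h1, h2, h3, -⟩ := hφ (s n₀)
    refine ⟨n, hs.le_iff_le.1 h1, h3.trans (le_of_eq ?_)⟩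
    rw [← hPSB]
    refine Finset.sum_congr rfl fun S _ => ?_
    have h5 := (hSAT (s n) E φ S h2).1
    by_cases h6 : satCK E (SpectralPivotal.scaled (2 ^ s n) S) φ
    · rw [if_pos (h5.1 h6)]
      exact (if_pos h6).symm
    · rw [if_neg fun h7 => h6 (h5.2 h7)]
      exact (if_neg h6).symm
  · have hle : ν.real {K | satCK E K φ} ≤ ν.real {K | satOK E K φ} :=
      measureReal_mono hsub (measure_ne_top _ _)
    refine hle.trans ?_
    refine hPMO _ ν (fun n => SpectralPivotal.Config (2 ^ s n))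
      (fun n _ => 1 / 2 ^ Fintype.card (SpectralPivotal.sites (2 ^ s n)))
      (fun n ω => SpectralPivotal.scaled (2 ^ s n) (SpectralPivotal.pivotal (2 ^ s n) ω))
      (fun n ω => by positivity) ?_ _ η hopen ?_
    · intro g
      refine (hν g).congr fun n => ?_
      rw [Finset.sum_div]
      refine Finset.sum_congr rfl fun ω _ => ?_
      ring
    · rw [frequently_atTop]
      intro n₀
      obtain ⟨_, ⟨n, rfl⟩, h1, h2, -, h3⟩ := hφ (s n₀)
      refine ⟨n, hs.le_iff_le.1 h1, (le_of_eq ?_).trans h3⟩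
      rw [← hPPB]
      refine Finset.sum_congr rfl fun ω _ => ?_
      have h5 := (hSAT (s n) E φ (SpectralPivotal.pivotal (2 ^ s n) ω) h2).2
      by_cases h6 : satOK E (SpectralPivotal.scaled (2 ^ s n)
        (SpectralPivotal.pivotal (2 ^ s n) ω)) φ
      · rw [if_pos (h5.1 h6)]
        exact if_pos h6
      · rw [if_neg fun h7 => h6 (h5.2 h7)]
        exact if_neg h6

end Pool.Agent.helper82.SW
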